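import Mathlib

/-!
# MP_b12a75: a `K₁*`-embedded subspace which is not `K₁`-embedded
-/

namespace Pool.Agent.Results.MP_b12a75_gt.BoundedNotUnbounded

open Set Topology Filter

/-- functionally closed sets -/
def FunctClosed {X : Type} [TopologicalSpace X] (A : Set X) : Prop :=
  ∃ f : X → unitInterval, Continuous f ∧ A = f ⁻¹' {0}

/-- sets of the first functionally additive class -/
def FunctAdd {X : Type} [TopologicalSpace X] (A : Set X) : Prop :=
  ∃ F : ℕ → Set X, (∀ n, FunctClosed (F n)) ∧ A = ⋃ n, F n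

/-- the first functional Lebesgue class -/
def K1 {X : Type} [TopologicalSpace X] (f : X → ℝ) : Prop :=
  ∀ V : Set ℝ, IsOpen V → FunctAdd (f ⁻¹' V)

/-- bounded functions of the first functional Lebesgue class -/
def K1Star {X : Type} [TopologicalSpace X] (f : X → ℝ) : Prop :=
  K1 f ∧ ∃ C : ℝ, ∀ x, |f x| ≤ C

/-- `E` is `K₁`-embedded in `X` -/
def K1Embedded {X : Type} [TopologicalSpace X] (E : Set X) : Prop :=
  ∀ f : E → ℝ, K1 f → ∃ g : X → ℝ, K1 g ∧ ∀ x : E, g x = f x

/-- `E` is `K₁*`-embedded in `X` -/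
def K1StarEmbedded {X : Type} [TopologicalSpace X] (E : Set X) : Prop :=
  ∀ f : E → ℝ, K1Star f → ∃ g : X → ℝ, K1Star g ∧ ∀ x : E, g x = f x

section General

variable {X : Type} [TopologicalSpace X]

theorem fc_of_map {M : Type} [TopologicalSpace M] [TopologicalSpace.MetrizableSpace M]
    {h : X → M} (hh : Continuous h) {F : Set M} (hF : IsClosed F) : FunctClosed (h ⁻¹' F) := by
  letI := TopologicalSpace.metrizableSpaceMetric M
  rcases F.eq_empty_or_nonempty with rfl | hne
  · refine ⟨fun _ => 1, continuous_const, ?_⟩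
    ext x
    simp
  · refine ⟨fun x => Set.projIcc 0 1 zero_le_one (Metric.infDist (h x) F),
      continuous_projIcc.comp ((Metric.continuous_infDist_pt F).comp hh), ?_⟩
    ext x
    rw [mem_preimage, mem_preimage, mem_singleton_iff]
    constructor
    · intro hx
      have : Metric.infDist (h x) F = 0 := Metric.infDist_zero_of_mem hx
      rw [this]
      exact projIcc_left (zero_le_one (α := ℝ))
    · intro hx
      have h1 : Metric.infDist (h x) F ≤ 0 := by
        by_contra hc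
        push Not at hc
        have h2 := congrArg Subtype.val hx
        rw [coe_projIcc] at h2
        have h3 : (0 : ℝ) < max 0 (min 1 (Metric.infDist (h x) F)) :=
          lt_max_of_lt_right (lt_min one_pos hc)
        exact h3.ne' h2
      exact (hF.mem_iff_infDist_zero hne).2 (le_antisymm h1 Metric.infDist_nonneg)

theorem FunctClosed.isClosed {A : Set X} (h : FunctClosed A) : IsClosed A := by
  obtain ⟨f, hf, rfl⟩ := h
  exact isClosed_singleton.preimage hf

theorem FunctClosed.iInter {F : ℕ → Set X} (h : ∀ n, FunctClosed (F n)) :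
    FunctClosed (⋂ n, F n) := by
  choose f hf hF using h
  have h1 : (⋂ n, F n) = (fun x n => f n x) ⁻¹' {(fun _ => 0 : ℕ → unitInterval)} := by
    ext x
    simp only [mem_iInter, mem_preimage, mem_singleton_iff, funext_iff]
    constructor
    · intro h n
      have := h n
      rw [hF n] at this
      exact this
    · intro h n
      rw [hF n]
      exact h n
  rw [h1]
  exact fc_of_map (continuous_pi hf) isClosed_singleton

theorem FunctClosed.inter {A B : Set X} (hA : FunctClosed A) (hB : FunctClosed B) :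
    FunctClosed (A ∩ B) := by
  obtain ⟨f, hf, rfl⟩ := hA
  obtain ⟨g, hg, rfl⟩ := hB
  have h1 : f ⁻¹' {0} ∩ g ⁻¹' {0} =
      (fun x => (f x, g x)) ⁻¹' {((0 : unitInterval), (0 : unitInterval))} := by
    ext x
    simp
  rw [h1]
  exact fc_of_map (hf.prodMk hg) isClosed_singleton

theorem FunctClosed.union {A B : Set X} (hA : FunctClosed A) (hB : FunctClosed B) :
    FunctClosed (A ∪ B) := by
  obtain ⟨f, hf, rfl⟩ := hA
  obtain ⟨g, hg, rfl⟩ := hB
  have h1 : f ⁻¹' {0} ∪ g ⁻¹' {0} =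
      (fun x => (f x, g x)) ⁻¹' ({(0 : unitInterval)} ×ˢ univ ∪ univ ×ˢ {(0 : unitInterval)}) := by
    ext x
    simp
  rw [h1]
  exact fc_of_map (hf.prodMk hg) ((isClosed_singleton.prod isClosed_univ).union
    (isClosed_univ.prod isClosed_singleton))

theorem FunctClosed.univ : FunctClosed (Set.univ : Set X) :=
  ⟨fun _ => 0, continuous_const, by ext x; simp⟩

theorem FunctClosed.of_clopen {A : Set X} (h : IsClopen A) : FunctClosed A := by
  classical
  have h1 : A = (fun x => decide (x ∈ A)) ⁻¹' {true} := by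
    ext x
    simp
  rw [h1]
  refine fc_of_map ?_ (isClosed_discrete _)
  exact (IsLocallyConstant.iff_isOpen_fiber.2 (by
    intro b
    cases b with
    | true => 
      have : (fun x => decide (x ∈ A)) ⁻¹' {true} = A := by ext x; simp
      rw [this]
      exact h.isOpen
    | false =>
      have : (fun x => decide (x ∈ A)) ⁻¹' {false} = Aᶜ := by ext x; simp
      rw [this]
      exact h.compl.isOpen)).continuous

theorem FunctClosed.functAdd {A : Set X} (h : FunctClosed A) : FunctAdd A :=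
  ⟨fun _ => A, fun _ => h, by rw [iUnion_const]⟩

theorem FunctAdd.iUnion {A : ℕ → Set X} (h : ∀ n, FunctAdd (A n)) : FunctAdd (⋃ n, A n) := by
  choose F hF hA using h
  refine ⟨fun k => F (Nat.unpair k).1 (Nat.unpair k).2, fun k => hF _ _, ?_⟩
  ext x
  simp only [mem_iUnion]
  constructor
  · rintro ⟨n, hn⟩
    rw [hA n] at hn
    obtain ⟨m, hm⟩ := mem_iUnion.1 hn
    refine ⟨Nat.pair n m, ?_⟩
    simpa using hm
  · rintro ⟨k, hk⟩
    refine ⟨(Nat.unpair k).1, ?_⟩
    rw [hA]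
    exact mem_iUnion.2 ⟨_, hk⟩

theorem FunctAdd.inter {A B : Set X} (hA : FunctAdd A) (hB : FunctAdd B) :
    FunctAdd (A ∩ B) := by
  obtain ⟨F, hF, rfl⟩ := hA
  obtain ⟨G, hG, rfl⟩ := hB
  refine ⟨fun k => F (Nat.unpair k).1 ∩ G (Nat.unpair k).2, fun k => (hF _).inter (hG _), ?_⟩
  ext x
  simp only [mem_inter_iff, mem_iUnion]
  constructor
  · rintro ⟨⟨n, hn⟩, ⟨m, hm⟩⟩
    refine ⟨Nat.pair n m, ?_⟩
    simpa using ⟨hn, hm⟩
  · rintro ⟨k, hk1, hk2⟩
    exact ⟨⟨_, hk1⟩, ⟨_, hk2⟩⟩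

theorem FunctAdd.union {A B : Set X} (hA : FunctAdd A) (hB : FunctAdd B) :
    FunctAdd (A ∪ B) := by
  have h1 : A ∪ B = ⋃ n : ℕ, if n = 0 then A else B := by
    ext x
    simp only [mem_union, mem_iUnion]
    constructor
    · rintro (h | h)
      · exact ⟨0, by simpa using h⟩
      · exact ⟨1, by simpa using h⟩
    · rintro ⟨n, hn⟩
      split_ifs at hn
      · exact Or.inl hn
      · exact Or.inr hn
  rw [h1]
  refine FunctAdd.iUnion fun n => ?_
  split_ifs
  · exact hA
  · exact hB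

theorem FunctAdd.univ : FunctAdd (Set.univ : Set X) := FunctClosed.univ.functAdd

theorem FunctAdd.of_map {M : Type} [TopologicalSpace M] [TopologicalSpace.MetrizableSpace M]
    {h : X → M} (hh : Continuous h) {U : Set M} (hU : IsOpen U) : FunctAdd (h ⁻¹' U) := by
  letI := TopologicalSpace.metrizableSpaceMetric M
  obtain ⟨F, hF, -, hFU, -⟩ := hU.exists_iUnion_isClosed
  refine ⟨fun n => h ⁻¹' F n, fun n => fc_of_map hh (hF n), ?_⟩
  rw [← hFU, preimage_iUnion]

end General

/-! ### A maximal crowded algebra of subsets of `ℕ` -/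

/-- an algebra of subsets of `ℕ`, separating points, whose nonempty members are infinite -/
structure Good (B : Set (Set ℕ)) : Prop where
  univ_mem : univ ∈ B
  compl : ∀ A ∈ B, Aᶜ ∈ B
  inter : ∀ A ∈ B, ∀ A' ∈ B, A ∩ A' ∈ B
  inf : ∀ A ∈ B, A.Nonempty → A.Infinite
  sep : ∀ x y : ℕ, x ≠ y → ∃ A ∈ B, x ∈ A ∧ y ∉ A

theorem good_periodic : Good {A : Set ℕ | ∃ k > 0, ∀ n, n ∈ A ↔ n + k ∈ A} where
  univ_mem := ⟨1, one_pos, fun n => by simp⟩
  compl := by
    rintro A ⟨k, hk, h⟩
    exact ⟨k, hk, fun n => not_congr (h n)⟩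
  inter := by
    rintro A ⟨k, hk, h⟩ A' ⟨k', hk', h'⟩
    have h1 : ∀ (C : Set ℕ) (a : ℕ), (∀ n, n ∈ C ↔ n + a ∈ C) → ∀ b n, n ∈ C ↔ n + b * a ∈ C := by
      intro C a hC b
      induction b with
      | zero => intro n; simp
      | succ b ih =>
        intro n
        rw [ih n, hC (n + b * a)]
        have : n + b * a + a = n + (b + 1) * a := by ring
        rw [this]
    refine ⟨k * k', Nat.mul_pos hk hk', fun n => ?_⟩
    have e1 := h1 A k h k' n
    have e2 := h1 A' k' h' k n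
    rw [mem_inter_iff, mem_inter_iff, e1, e2, mul_comm k' k]
  inf := by
    rintro A ⟨k, hk, h⟩ ⟨x, hx⟩
    have h1 : ∀ b, x + b * k ∈ A := by
      intro b
      induction b with
      | zero => simpa using hx
      | succ b ih =>
        have : x + (b + 1) * k = x + b * k + k := by ring
        rw [this]
        exact (h _).1 ih
    exact Set.infinite_of_injective_forall_mem (f := fun b => x + b * k) (by
      intro a b hab
      have : a * k = b * k := by simpa using hab
      exact Nat.eq_of_mul_eq_mul_right hk this) h1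
  sep := by
    intro x y hxy
    refine ⟨{n | n % (x + y + 1) = x}, ⟨x + y + 1, by omega, fun n => ?_⟩, ?_, ?_⟩
    · show n % (x + y + 1) = x ↔ (n + (x + y + 1)) % (x + y + 1) = x
      rw [Nat.add_mod_right]
    · show x % (x + y + 1) = x
      exact Nat.mod_eq_of_lt (by omega)
    · show ¬ (y % (x + y + 1) = x)
      rw [Nat.mod_eq_of_lt (by omega)]
      exact fun h => hxy h.symm

theorem exists_maximal : ∃ B : Set (Set ℕ), Maximal Good B := by
  obtain ⟨B, -, hB⟩ := zorn_subset_nonempty {B : Set (Set ℕ) | Good B} (by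
    rintro c hc hchain ⟨B₀, hB₀⟩
    refine ⟨⋃₀ c, ?_, fun s hs => subset_sUnion_of_mem hs⟩
    have hdir : ∀ A ∈ ⋃₀ c, ∀ A' ∈ ⋃₀ c, ∃ B ∈ c, A ∈ B ∧ A' ∈ B := by
      rintro A ⟨B, hB, hA⟩ A' ⟨B', hB', hA'⟩
      rcases hchain.total hB hB' with h | h
      · exact ⟨B', hB', h hA, hA'⟩
      · exact ⟨B, hB, hA, h hA'⟩
    exact
    { univ_mem := ⟨B₀, hB₀, (hc hB₀).univ_mem⟩
      compl := by
        rintro A ⟨B, hB, hA⟩
        exact ⟨B, hB, (hc hB).compl A hA⟩
      inter := by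
        intro A hA A' hA'
        obtain ⟨B, hB, h1, h2⟩ := hdir A hA A' hA'
        exact ⟨B, hB, (hc hB).inter A h1 A' h2⟩
      inf := by
        rintro A ⟨B, hB, hA⟩
        exact (hc hB).inf A hA
      sep := by
        intro x y hxy
        obtain ⟨A, hA, h⟩ := (hc hB₀).sep x y hxy
        exact ⟨A, ⟨B₀, hB₀, hA⟩, h⟩ }) _ good_periodic
  exact ⟨B, hB⟩

/-- `P` is crowded with respect to `B` -/
def Crowded (B : Set (Set ℕ)) (P : Set ℕ) : Prop :=
  ∀ A ∈ B, (A ∩ P).Nonempty → (A ∩ P).Infinite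

section Max

variable {B : Set (Set ℕ)} (hB : Maximal Good B)

include hB

theorem union_mem {A A' : Set ℕ} (hA : A ∈ B) (hA' : A' ∈ B) : A ∪ A' ∈ B := by
  have := hB.prop.compl _ (hB.prop.inter _ (hB.prop.compl _ hA) _ (hB.prop.compl _ hA'))
  rwa [compl_inter, compl_compl, compl_compl] at this

theorem empty_mem : ∅ ∈ B := by
  have := hB.prop.compl _ hB.prop.univ_mem
  rwa [compl_univ] at this

theorem diff_mem {A A' : Set ℕ} (hA : A ∈ B) (hA' : A' ∈ B) : A \ A' ∈ B :=
  hB.prop.inter _ hA _ (hB.prop.compl _ hA')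

theorem mem_of_crowded {P : Set ℕ} (h1 : Crowded B P) (h2 : Crowded B Pᶜ) : P ∈ B := by
  have hsub : B ⊆ {C : Set ℕ | ∃ A ∈ B, ∃ A' ∈ B, C = A ∩ P ∪ A' ∩ Pᶜ} := by
    intro A hA
    refine ⟨A, hA, A, hA, ?_⟩
    rw [← inter_union_distrib_left, union_compl_self, inter_univ]
  have hgood : Good {C : Set ℕ | ∃ A ∈ B, ∃ A' ∈ B, C = A ∩ P ∪ A' ∩ Pᶜ} :=
  { univ_mem := hsub hB.prop.univ_mem
    compl := by
      rintro _ ⟨A, hA, A', hA', rfl⟩
      refine ⟨Aᶜ, hB.prop.compl _ hA, A'ᶜ, hB.prop.compl _ hA', ?_⟩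
      ext x
      simp only [mem_compl_iff, mem_union, mem_inter_iff]
      tauto
    inter := by
      rintro _ ⟨A, hA, A', hA', rfl⟩ _ ⟨C, hC, C', hC', rfl⟩
      refine ⟨A ∩ C, hB.prop.inter _ hA _ hC, A' ∩ C', hB.prop.inter _ hA' _ hC', ?_⟩
      ext x
      simp only [mem_compl_iff, mem_union, mem_inter_iff]
      tauto
    inf := by
      rintro _ ⟨A, hA, A', hA', rfl⟩ ⟨x, hx | hx⟩
      · exact (h1 A hA ⟨x, hx⟩).mono subset_union_left
      · exact (h2 A' hA' ⟨x, hx⟩).mono subset_union_right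
    sep := by
      intro x y hxy
      obtain ⟨A, hA, h⟩ := hB.prop.sep x y hxy
      exact ⟨A, hsub hA, h⟩ }
  have hle := hB.le_of_ge hgood hsub
  exact hle ⟨univ, hB.prop.univ_mem, ∅, empty_mem hB, by simp⟩

/-- separate a point from a finite set -/
theorem sep_finite {x : ℕ} {F : Set ℕ} (hF : F.Finite) (hx : x ∉ F) :
    ∃ A ∈ B, x ∈ A ∧ Disjoint A F := by
  induction F, hF using Set.Finite.induction_on with
  | empty => exact ⟨univ, hB.prop.univ_mem, mem_univ _, disjoint_empty _⟩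
  | @insert a s ha hs ih =>
    rw [mem_insert_iff, not_or] at hx
    obtain ⟨A, hA, hxA, hd⟩ := ih hx.2
    obtain ⟨A', hA', hxA', ha'⟩ := hB.prop.sep x a hx.1
    refine ⟨A ∩ A', hB.prop.inter _ hA _ hA', ⟨hxA, hxA'⟩, ?_⟩
    rw [disjoint_insert_right]
    exact ⟨fun h => ha' h.2, hd.mono_left inter_subset_left⟩

/-- a nonempty crowded set has nonempty interior -/
theorem exists_subset_of_crowded {P : Set ℕ} (h1 : Crowded B P) (hne : P.Nonempty) :
    ∃ A ∈ B, A.Nonempty ∧ A ⊆ P := by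
  by_contra hcon
  push Not at hcon
  have h2 : Crowded B Pᶜ := by
    intro A hA hAne
    by_contra hfin
    rw [Set.not_infinite] at hfin
    have hAinf := hB.prop.inf A hA (hAne.mono inter_subset_left)
    obtain ⟨x, hx⟩ := (hAinf.sdiff hfin).nonempty
    obtain ⟨C, hC, hxC, hd⟩ := sep_finite hB hfin hx.2
    refine hcon (A ∩ C) (hB.prop.inter _ hA _ hC) ⟨x, hx.1, hxC⟩ ?_
    intro y hy
    by_contra hyP
    exact (Set.disjoint_left.1 hd) hy.2 ⟨hy.1, hyP⟩
  exact hcon P (mem_of_crowded hB h1 h2) hne Subset.rfl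

/-- every set agrees with a member of `B` up to sets without crowded subsets -/
theorem exists_approx (N : Set ℕ) : ∃ C ∈ B,
    (∀ P ⊆ C \ N, P.Nonempty → ¬ Crowded B P) ∧ (∀ P ⊆ N \ C, P.Nonempty → ¬ Crowded B P) := by
  let I : Set ℕ := {x | ∃ A ∈ B, x ∈ A ∧ A ⊆ N}
  let C : Set ℕ := {x | ∀ A ∈ B, x ∈ A → (A ∩ I).Nonempty}
  have hIC : I ⊆ C := fun x hx A hA hxA => ⟨x, hxA, hx⟩
  have hIo : ∀ x ∈ I, ∃ A ∈ B, x ∈ A ∧ A ⊆ I := by
    rintro x ⟨A, hA, hx, hAN⟩
    exact ⟨A, hA, hx, fun y hy => ⟨A, hA, hy, hAN⟩⟩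
  have hCo : ∀ x ∉ C, ∃ A ∈ B, x ∈ A ∧ A ⊆ Cᶜ := by
    intro x hx
    have hx' : ¬ ∀ A ∈ B, x ∈ A → (A ∩ I).Nonempty := hx
    push Not at hx'
    obtain ⟨A, hA, hxA, he⟩ := hx'
    refine ⟨A, hA, hxA, fun y hy hyC => ?_⟩
    have := hyC A hA hy
    rw [he] at this
    exact Set.not_nonempty_empty this
  have hC : C ∈ B := by
    apply mem_of_crowded hB
    · rintro A hA ⟨x, hxA, hxC⟩
      obtain ⟨y, hyA, hyI⟩ := hxC A hA hxA
      obtain ⟨A', hA', hyA', hA'I⟩ := hIo y hyI
      exact (hB.prop.inf _ (hB.prop.inter _ hA _ hA') ⟨y, hyA, hyA'⟩).mono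
        (inter_subset_inter_right _ (hA'I.trans hIC))
    · rintro A hA ⟨x, hxA, hxC⟩
      obtain ⟨A', hA', hyA', hA'I⟩ := hCo x hxC
      exact (hB.prop.inf _ (hB.prop.inter _ hA _ hA') ⟨x, hxA, hyA'⟩).mono
        (inter_subset_inter_right _ hA'I)
  refine ⟨C, hC, fun P hP hne hcr => ?_, fun P hP hne hcr => ?_⟩
  · obtain ⟨A, hA, ⟨x, hx⟩, hAP⟩ := exists_subset_of_crowded hB hcr hne
    obtain ⟨y, hyA, hyI⟩ := (hP (hAP hx)).1 A hA hx
    obtain ⟨A', -, hyA', hA'N⟩ := hyI
    exact (hP (hAP hyA)).2 (hA'N hyA')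
  · obtain ⟨A, hA, ⟨x, hx⟩, hAP⟩ := exists_subset_of_crowded hB hcr hne
    exact (hP (hAP hx)).2 (hIC ⟨A, hA, hx, fun y hy => (hP (hAP hy)).1⟩)

end Max

/-! ### The space -/

section Space

variable {B : Set (Set ℕ)} (hB : Maximal Good B)

open Classical in
/-- evaluation map from `ℕ` to the Cantor cube `2^B` -/
noncomputable def iota (B : Set (Set ℕ)) (n : ℕ) : B → Bool := fun A => decide (n ∈ (A : Set ℕ))

theorem iota_apply (n : ℕ) (A : B) : iota B n A = true ↔ n ∈ (A : Set ℕ) := by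
  simp [iota]

open Classical in
/-- separating sets -/
noncomputable def sepSet (n m : ℕ) : Set ℕ :=
  if h : n = m then univ else (hB.prop.sep n m h).choose

theorem sepSet_mem (n m : ℕ) : sepSet hB n m ∈ B := by
  unfold sepSet
  split_ifs with h
  · exact hB.prop.univ_mem
  · exact (hB.prop.sep n m h).choose_spec.1

theorem mem_sepSet (n m : ℕ) : n ∈ sepSet hB n m := by
  unfold sepSet
  split_ifs with h
  · exact mem_univ _
  · exact (hB.prop.sep n m h).choose_spec.2.1

theorem notMem_sepSet {n m : ℕ} (h : n ≠ m) : m ∉ sepSet hB n m := by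
  unfold sepSet
  rw [dif_neg h]
  exact (hB.prop.sep n m h).choose_spec.2.2

/-- the closed `G_δ` set meeting `ℕ` in `n` only -/
def Zn (n : ℕ) : Set (B → Bool) := {z | ∀ m, z ⟨sepSet hB n m, sepSet_mem hB n m⟩ = true}

theorem isClosed_Zn (n : ℕ) : IsClosed (Zn hB n) := by
  have h : Zn hB n = ⋂ m, (fun z : B → Bool => z ⟨sepSet hB n m, sepSet_mem hB n m⟩) ⁻¹' {true} := by
    ext z
    simp [Zn]
  rw [h]
  exact isClosed_iInter fun m => (isClosed_discrete _).preimage (continuous_apply _)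

theorem iota_mem_Zn {n m : ℕ} (h : iota B m ∈ Zn hB n) : m = n := by
  by_contra hne
  have h1 := h m
  rw [iota_apply] at h1
  exact notMem_sepSet hB (Ne.symm hne) h1

/-- the underlying set of the space -/
def Xset : Set (B → Bool) :=
  {z | z ∈ closure (range (iota B)) ∧ (z ∈ range (iota B) ∨ ∀ n, z ∉ Zn hB n)}

/-- the points of `E` -/
noncomputable def pt (n : ℕ) : Xset hB := ⟨iota B n, subset_closure ⟨n, rfl⟩, Or.inl ⟨n, rfl⟩⟩

theorem pt_injective : Function.Injective (pt hB) := by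
  intro n m h
  have h1 : iota B n = iota B m := congrArg Subtype.val h
  by_contra hne
  obtain ⟨A, hA, hn, hm⟩ := hB.prop.sep n m hne
  have h2 := congrFun h1 ⟨A, hA⟩
  rw [(iota_apply n ⟨A, hA⟩).2 hn] at h2
  exact hm ((iota_apply m ⟨A, hA⟩).1 h2.symm)

/-- the extension of members of `B` -/
def star (A : B) : Set (Xset hB) := {z | z.1 A = true}

theorem isClopen_star (A : B) : IsClopen (star hB A) := by
  have hc : Continuous (fun z : Xset hB => z.1 A) := (continuous_apply A).comp continuous_subtype_val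
  exact (isClopen_discrete {true}).preimage hc

theorem pt_mem_star {n : ℕ} {A : B} : pt hB n ∈ star hB A ↔ n ∈ (A : Set ℕ) := iota_apply n A

theorem star_disjoint {A A' : B} (h : Disjoint (A : Set ℕ) A') :
    Disjoint (star hB A) (star hB A') := by
  rw [Set.disjoint_left]
  intro z hz hz'
  have ho1 : IsOpen ((fun w : B → Bool => w A) ⁻¹' {true}) :=
    (isOpen_discrete _).preimage (continuous_apply A)
  have ho2 : IsOpen ((fun w : B → Bool => w A') ⁻¹' {true}) :=
    (isOpen_discrete _).preimage (continuous_apply A')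
  have ho : IsOpen {w : B → Bool | w A = true ∧ w A' = true} := ho1.inter ho2
  obtain ⟨_, ⟨h1, h2⟩, ⟨n, rfl⟩⟩ := mem_closure_iff.1 z.2.1 _ ho ⟨hz, hz'⟩
  exact (Set.disjoint_left.1 h) ((iota_apply n A).1 h1) ((iota_apply n A').1 h2)

theorem fc_pt (n : ℕ) : FunctClosed ({pt hB n} : Set (Xset hB)) := by
  have h1 : ({pt hB n} : Set (Xset hB)) =
      (fun z m => z.1 ⟨sepSet hB n m, sepSet_mem hB n m⟩) ⁻¹' {(fun _ => true : ℕ → Bool)} := by
    ext z
    simp only [mem_singleton_iff, mem_preimage]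
    constructor
    · rintro rfl
      funext m
      exact (iota_apply n _).2 (mem_sepSet hB n m)
    · intro h
      have hz : z.1 ∈ Zn hB n := fun m => congrFun h m
      rcases z.2.2 with ⟨m, hm⟩ | hn
      · apply Subtype.ext
        rw [← hm] at hz ⊢
        rw [iota_mem_Zn hB hz]
        rfl
      · exact absurd hz (hn n)
  rw [h1]
  refine fc_of_map ?_ isClosed_singleton
  exact continuous_pi fun m => (continuous_apply _).comp continuous_subtype_val

theorem functAdd_image (S : Set ℕ) : FunctAdd (pt hB '' S) := by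
  classical
  by_cases hS : S.Nonempty
  · obtain ⟨s, hs⟩ := hS
    refine ⟨fun n => {pt hB (if n ∈ S then n else s)}, fun n => fc_pt hB _, ?_⟩
    ext z
    simp only [mem_image, mem_iUnion, mem_singleton_iff]
    constructor
    · rintro ⟨n, hn, rfl⟩
      exact ⟨n, by rw [if_pos hn]⟩
    · rintro ⟨n, rfl⟩
      split_ifs with h
      · exact ⟨n, h, rfl⟩
      · exact ⟨s, hs, rfl⟩
  · rw [Set.not_nonempty_iff_eq_empty] at hS
    rw [hS, image_empty]
    have : (∅ : Set (Xset hB)) = (Set.univ : Set (Xset hB))ᶜ := by simp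
    rw [this]
    exact (FunctClosed.of_clopen isClopen_univ.compl).functAdd

theorem FunctAdd.preimage {X Y : Type} [TopologicalSpace X] [TopologicalSpace Y] {A : Set Y}
    (hA : FunctAdd A) {h : X → Y} (hh : Continuous h) : FunctAdd (h ⁻¹' A) := by
  obtain ⟨F, hF, rfl⟩ := hA
  refine ⟨fun n => h ⁻¹' F n, fun n => ?_, by rw [preimage_iUnion]⟩
  obtain ⟨f, hf, hfe⟩ := hF n
  exact ⟨f ∘ h, hf.comp hh, by show h ⁻¹' F n = _; rw [hfe]; rfl⟩

theorem functAdd_E (T : Set (range (pt hB))) : FunctAdd T := by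
  have h1 : T = Subtype.val ⁻¹' (pt hB '' {n | (⟨pt hB n, n, rfl⟩ : range (pt hB)) ∈ T}) := by
    ext ⟨_, n, rfl⟩
    constructor
    · intro h
      exact ⟨n, h, rfl⟩
    · rintro ⟨m, hm, hmn⟩
      have : m = n := pt_injective hB hmn
      subst this
      exact hm
  rw [h1]
  exact (functAdd_image hB _).preimage continuous_subtype_val

theorem FunctAdd.iUnion_countable {X : Type} [TopologicalSpace X] {ι : Type} [Countable ι]
    {A : ι → Set X} (h : ∀ i, FunctAdd (A i)) : FunctAdd (⋃ i, A i) := by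
  rcases isEmpty_or_nonempty ι with hι | hι
  · rw [iUnion_of_empty]
    have : (∅ : Set X) = (Set.univ : Set X)ᶜ := by simp
    rw [this]
    exact (FunctClosed.of_clopen isClopen_univ.compl).functAdd
  · obtain ⟨e, he⟩ := exists_surjective_nat ι
    rw [← he.iUnion_comp]
    exact FunctAdd.iUnion fun n => h _

theorem functAdd_cantor {X : Type} [TopologicalSpace X] (Δ : X → ℕ → Bool)
    (h : ∀ k b, FunctAdd {x | Δ x k = b}) {W : Set (ℕ → Bool)} (hW : IsOpen W) :
    FunctAdd (Δ ⁻¹' W) := by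
  let ι := {p : Σ n : ℕ, (Fin n → Bool) // {w : ℕ → Bool | ∀ i : Fin p.1, w i = p.2 i} ⊆ W}
  have h1 : Δ ⁻¹' W = ⋃ p : ι, {x | ∀ i : Fin p.1.1, Δ x i = p.1.2 i} := by
    ext x
    rw [mem_iUnion]
    constructor
    · intro hx
      obtain ⟨I, u, hu1, hu2⟩ := isOpen_pi_iff.1 hW _ hx
      refine ⟨⟨⟨I.sup id + 1, fun i => Δ x i⟩, fun w hw => hu2 fun a ha => ?_⟩, fun i => rfl⟩
      have h2 : a < I.sup id + 1 := Nat.lt_succ_of_le (Finset.le_sup (f := id) ha)
      have h3 := hw ⟨a, h2⟩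
      simp only at h3
      rw [h3]
      exact (hu1 a ha).2
    · rintro ⟨p, hp⟩
      exact p.2 hp
  rw [h1]
  refine FunctAdd.iUnion_countable fun p => ?_
  have h4 : ∀ (n : ℕ) (s : Fin n → Bool), FunctAdd {x | ∀ i : Fin n, Δ x i = s i} := by
    intro n
    induction n with
    | zero =>
      intro s
      have : {x | ∀ i : Fin 0, Δ x i = s i} = Set.univ := by
        ext x
        simp
      rw [this]
      exact FunctClosed.univ.functAdd
    | succ n ih =>
      intro s
      have : {x | ∀ i : Fin (n + 1), Δ x i = s i} =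
          {x | ∀ i : Fin n, Δ x i = s i.castSucc} ∩ {x | Δ x n = s (Fin.last n)} := by
        ext x
        constructor
        · intro hx
          exact ⟨fun i => hx i.castSucc, hx (Fin.last n)⟩
        · rintro ⟨hx1, hx2⟩ i
          refine Fin.lastCases ?_ (fun i => ?_) i
          · exact hx2
          · exact hx1 i
      rw [this]
      exact (ih _).inter (h _ _)
  exact h4 _ _

/-- `S ⊆ ℕ` is a functional `G_δ` in the space -/
def GD (S : Set ℕ) : Prop := FunctAdd ((pt hB '' S)ᶜ)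

theorem GD.empty : GD hB ∅ := by
  unfold GD
  rw [image_empty, compl_empty]
  exact FunctClosed.univ.functAdd

theorem GD.union {S T : Set ℕ} (hS : GD hB S) (hT : GD hB T) : GD hB (S ∪ T) := by
  unfold GD at *
  rw [image_union, compl_union]
  exact hS.inter hT

theorem GD.singleton (n : ℕ) : GD hB {n} := by
  unfold GD
  rw [image_singleton]
  obtain ⟨f, hf, hfn⟩ := fc_pt hB n
  rw [hfn, ← preimage_compl]
  exact FunctAdd.of_map hf isClosed_singleton.isOpen_compl

theorem GD.finite {S : Set ℕ} (hS : S.Finite) : GD hB S := by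
  induction S, hS using Set.Finite.induction_on with
  | empty => exact GD.empty hB
  | @insert a s ha hs ih =>
    rw [insert_eq]
    exact (GD.singleton hB a).union hB ih

theorem GD.inter {S : Set ℕ} (hS : GD hB S) {A : Set ℕ} (hA : A ∈ B) : GD hB (S ∩ A) := by
  unfold GD at *
  have h1 : (pt hB '' (S ∩ A))ᶜ = (pt hB '' S)ᶜ ∪ (star hB ⟨A, hA⟩)ᶜ := by
    rw [← compl_inter]
    congr 1
    ext z
    constructor
    · rintro ⟨n, ⟨hn, hnA⟩, rfl⟩
      exact ⟨⟨n, hn, rfl⟩, (pt_mem_star hB).2 hnA⟩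
    · rintro ⟨⟨n, hn, rfl⟩, h⟩
      exact ⟨n, ⟨hn, (pt_mem_star hB).1 h⟩, rfl⟩
  rw [h1]
  exact hS.union (FunctClosed.of_clopen (isClopen_star hB _).compl).functAdd

theorem GD.glue {A : ℕ → Set ℕ} (hA : ∀ k, A k ∈ B) (hd : Pairwise (Function.onFun Disjoint A))
    {S : ℕ → Set ℕ} (hSA : ∀ k, S k ⊆ A k) (hS : ∀ k, GD hB (S k)) : GD hB (⋃ k, S k) := by
  unfold GD at *
  choose F hF hFe using hS
  refine ⟨fun n => ⋂ k, (F k n ∪ (star hB ⟨A k, hA k⟩)ᶜ), fun n => FunctClosed.iInter fun k =>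
    (hF k n).union (FunctClosed.of_clopen (isClopen_star hB _).compl), ?_⟩
  ext z
  simp only [mem_iUnion, mem_iInter]
  constructor
  · intro hz
    by_cases h : ∃ k, z ∈ star hB ⟨A k, hA k⟩
    · obtain ⟨k, hk⟩ := h
      have h1 : z ∈ (pt hB '' S k)ᶜ := fun h => hz (image_mono (subset_iUnion S k) h)
      rw [hFe k] at h1
      obtain ⟨n, hn⟩ := mem_iUnion.1 h1
      refine ⟨n, fun l => ?_⟩
      by_cases hl : l = k
      · rw [hl]
        exact Or.inl hn
      · right
        intro hzl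
        exact (Set.disjoint_left.1 (star_disjoint hB (A := ⟨A l, hA l⟩) (A' := ⟨A k, hA k⟩)
          (hd hl))) hzl hk
    · push Not at h
      exact ⟨0, fun k => Or.inr (h k)⟩
  · rintro ⟨n, hn⟩ ⟨m, hm, rfl⟩
    obtain ⟨k, hk⟩ := mem_iUnion.1 hm
    rcases hn k with h | h
    · have h1 : pt hB m ∈ (pt hB '' S k)ᶜ := by
        rw [hFe k]
        exact mem_iUnion.2 ⟨n, h⟩
      exact h1 ⟨m, hk, rfl⟩
    · exact h ((pt_mem_star hB).2 (hSA k hk))

theorem GD.of_scattered {S : Set ℕ} (hS : ∀ P ⊆ S, P.Nonempty → ¬ Crowded B P) : GD hB S := by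
  classical
  let U : Set ℕ := {n | ∃ A ∈ B, n ∈ A ∧ GD hB (S ∩ A)}
  have hch : ∀ n, ∃ A ∈ B, (n ∈ U → n ∈ A) ∧ GD hB (S ∩ A) := by
    intro n
    by_cases hn : n ∈ U
    · obtain ⟨A, hA, h1, h2⟩ := hn
      exact ⟨A, hA, fun _ => h1, h2⟩
    · refine ⟨∅, empty_mem hB, fun h => absurd h hn, ?_⟩
      rw [inter_empty]
      exact GD.empty hB
  choose A hA hnA hGA using hch
  have hdB : ∀ k, disjointed A k ∈ B := by
    intro k
    rw [disjointed_eq_inter_compl]
    refine hB.prop.inter _ (hA k) _ ?_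
    have : ∀ k : ℕ, (⋂ j, ⋂ (_ : j < k), (A j)ᶜ) ∈ B := by
      intro k
      induction k with
      | zero => 
        have : (⋂ j, ⋂ (_ : j < 0), (A j)ᶜ) = univ := by simp
        rw [this]
        exact hB.prop.univ_mem
      | succ k ih =>
        have : (⋂ j, ⋂ (_ : j < k + 1), (A j)ᶜ) = (⋂ j, ⋂ (_ : j < k), (A j)ᶜ) ∩ (A k)ᶜ := by
          ext x
          simp only [mem_iInter, mem_inter_iff]
          constructor
          · intro h
            exact ⟨fun j hj => h j (by omega), h k (by omega)⟩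
          · rintro ⟨h1, h2⟩ j hj
            rcases Nat.lt_succ_iff_lt_or_eq.1 hj with h | h
            · exact h1 j h
            · rw [h]
              exact h2
        rw [this]
        exact hB.prop.inter _ ih _ (hB.prop.compl _ (hA k))
    exact this k
  have h1 : GD hB (⋃ k, S ∩ disjointed A k) := by
    refine GD.glue hB hdB (disjoint_disjointed A) (fun k => inter_subset_right) (fun k => ?_)
    have h2 := (hGA k).inter hB (hdB k)
    have h3 : S ∩ A k ∩ disjointed A k = S ∩ disjointed A k := by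
      rw [inter_assoc, inter_eq_self_of_subset_right (disjointed_subset A k)]
    rwa [h3] at h2
  have h2 : (⋃ k, S ∩ disjointed A k) = S ∩ ⋃ k, A k := by
    rw [← inter_iUnion, iUnion_disjointed]
  have h3 : S ∩ ⋃ k, A k = S := by
    rw [inter_eq_left]
    by_contra hcon
    rw [Set.not_subset] at hcon
    obtain ⟨x, hxS, hxU⟩ := hcon
    have h4 := hS (S \ ⋃ k, A k) sdiff_subset ⟨x, hxS, hxU⟩
    unfold Crowded at h4
    push Not at h4
    obtain ⟨D, hD, ⟨y, hyD, hyS, hyU⟩, hfin⟩ := h4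
    have h5 : S ∩ D = (⋃ k, S ∩ disjointed A k) ∩ D ∪ (D ∩ (S \ ⋃ k, A k)) := by
      rw [h2]
      ext w
      simp only [mem_inter_iff, mem_union, Set.mem_sdiff]
      tauto
    have h6 : GD hB (S ∩ D) := by
      rw [h5]
      exact (h1.inter hB hD).union hB (GD.finite hB hfin)
    have h7 : y ∈ U := ⟨D, hD, hyD, h6⟩
    exact hyU (mem_iUnion.2 ⟨y, hnA y h7⟩)
  rw [h2, h3] at h1
  exact h1

/-- every subset of `ℕ` extends to an ambiguous set -/
theorem exists_ambiguous (N : Set ℕ) : ∃ A : Set (Xset hB), FunctAdd A ∧ FunctAdd Aᶜ ∧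
    ∀ n, pt hB n ∈ A ↔ n ∈ N := by
  obtain ⟨C, hC, h1, h2⟩ := exists_approx hB N
  have hG1 := GD.of_scattered hB h1
  have hG2 := GD.of_scattered hB h2
  have hc := isClopen_star hB ⟨C, hC⟩
  refine ⟨(star hB ⟨C, hC⟩ ∩ (pt hB '' (C \ N))ᶜ) ∪ pt hB '' (N \ C), ?_, ?_, ?_⟩
  · exact ((FunctClosed.of_clopen hc).functAdd.inter hG1).union (functAdd_image hB _)
  · rw [compl_union, compl_inter, compl_compl]
    exact ((FunctClosed.of_clopen hc.compl).functAdd.union (functAdd_image hB _)).inter hG2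
  · intro n
    simp only [mem_union, mem_inter_iff, mem_compl_iff, pt_mem_star,
      (pt_injective hB).mem_set_image, Set.mem_sdiff]
    tauto

include hB in
theorem exists_agree (n : ℕ) (I : Finset B) : ∃ D ∈ B, n ∈ D ∧
    ∀ m ∈ D, ∀ A ∈ I, iota B m A = iota B n A := by
  classical
  induction I using Finset.induction_on with
  | empty => exact ⟨univ, hB.prop.univ_mem, mem_univ _, by simp⟩
  | @insert A I hA ih =>
    obtain ⟨D, hD, hnD, h⟩ := ih
    by_cases hn : n ∈ (A : Set ℕ)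
    · refine ⟨D ∩ A, hB.prop.inter _ hD _ A.2, ⟨hnD, hn⟩, fun m hm C hC => ?_⟩
      rcases Finset.mem_insert.1 hC with rfl | hC
      · rw [(iota_apply m C).2 hm.2, (iota_apply n C).2 hn]
      · exact h m hm.1 C hC
    · refine ⟨D ∩ (A : Set ℕ)ᶜ, hB.prop.inter _ hD _ (hB.prop.compl _ A.2), ⟨hnD, hn⟩,
        fun m hm C hC => ?_⟩
      rcases Finset.mem_insert.1 hC with rfl | hC
      · have h1 : ¬ iota B m C = true := fun h => hm.2 ((iota_apply m C).1 h)
        have h2 : ¬ iota B n C = true := fun h => hn ((iota_apply n C).1 h)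
        rw [Bool.not_eq_true] at h1 h2
        rw [h1, h2]
      · exact h m hm.1 C hC

include hB in
theorem exists_basic {O : Set (B → Bool)} (hO : IsOpen O) {n : ℕ} (hn : iota B n ∈ O) :
    ∃ D ∈ B, n ∈ D ∧ ∀ m ∈ D, iota B m ∈ O := by
  obtain ⟨I, u, h1, h2⟩ := isOpen_pi_iff.1 hO _ hn
  obtain ⟨D, hD, hnD, h⟩ := exists_agree hB n I
  refine ⟨D, hD, hnD, fun m hm => h2 ?_⟩
  intro A hA
  rw [h m hm A hA]
  exact (h1 A hA).2

theorem not_K1Embedded : ¬ K1Embedded (range (pt hB)) := by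
  intro hemb
  let e := Equiv.ofInjective (pt hB) (pt_injective hB)
  obtain ⟨g, hg, hgf⟩ := hemb (fun x => ((e.symm x : ℕ) : ℝ)) (fun V _ => functAdd_E hB _)
  have hgn : ∀ n : ℕ, g (pt hB n) = n := by
    intro n
    have h1 := hgf (e n)
    rw [Equiv.symm_apply_apply] at h1
    exact h1
  have hg' : ∀ m : ℕ, FunctAdd (g ⁻¹' Ioo (-(m : ℝ)) m) := fun m => hg _ isOpen_Ioo
  choose F hF hFe using hg'
  let K : Set (B → Bool) := closure (range (iota B))
  haveI : CompactSpace K := isCompact_iff_compactSpace.1 (isClosed_closure.isCompact)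
  haveI : Nonempty K := ⟨⟨iota B 0, subset_closure ⟨0, rfl⟩⟩⟩
  let G : ℕ ⊕ (ℕ × ℕ) → Set K := fun i => match i with
    | Sum.inl n => Subtype.val ⁻¹' Zn hB n
    | Sum.inr (m, l) => Subtype.val ⁻¹' closure (Subtype.val '' F m l)
  have hGc : ∀ i, IsClosed (G i) := by
    rintro (n | ⟨m, l⟩)
    · exact (isClosed_Zn hB n).preimage continuous_subtype_val
    · exact isClosed_closure.preimage continuous_subtype_val
  have hGu : ⋃ i, G i = univ := by
    rw [eq_univ_iff_forall]
    intro z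
    rw [mem_iUnion]
    by_cases h : ∃ n, z.1 ∈ Zn hB n
    · obtain ⟨n, hn⟩ := h
      exact ⟨Sum.inl n, hn⟩
    · push Not at h
      let x : Xset hB := ⟨z.1, z.2, Or.inr h⟩
      obtain ⟨m, hm⟩ := exists_nat_gt |g x|
      have h1 : x ∈ g ⁻¹' Ioo (-(m : ℝ)) m := abs_lt.1 hm
      rw [hFe m] at h1
      obtain ⟨l, hl⟩ := mem_iUnion.1 h1
      exact ⟨Sum.inr (m, l), subset_closure ⟨x, hl, rfl⟩⟩
  obtain ⟨i, z, hz⟩ := nonempty_interior_of_iUnion_of_closed hGc hGu
  obtain ⟨V, hVs, hVo, hzV⟩ := mem_interior.1 hz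
  obtain ⟨O, hO, rfl⟩ := isOpen_induced_iff.1 hVo
  obtain ⟨_, hnO, ⟨n, rfl⟩⟩ := mem_closure_iff.1 z.2 O hO hzV
  obtain ⟨D, hD, hnD, hDO⟩ := exists_basic hB hO hnO
  have hDinf := hB.prop.inf D hD ⟨n, hnD⟩
  have hDG : ∀ k ∈ D, (⟨iota B k, subset_closure ⟨k, rfl⟩⟩ : K) ∈ G i := fun k hk => hVs (hDO k hk)
  rcases i with n₀ | ⟨m, l⟩
  · obtain ⟨k, hk, hk'⟩ := (hDinf.sdiff (finite_singleton n₀)).nonempty
    exact hk' (iota_mem_Zn hB (hDG k hk))
  · refine hDinf ((finite_Iio m).subset fun k hk => ?_)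
    have h1 : (iota B k) ∈ closure (Subtype.val '' F m l) := hDG k hk
    have h2 : pt hB k ∈ closure (F m l) := closure_subtype.2 h1
    rw [(hF m l).isClosed.closure_eq] at h2
    have h3 : pt hB k ∈ g ⁻¹' Ioo (-(m : ℝ)) m := by
      rw [hFe m]
      exact mem_iUnion.2 ⟨l, h2⟩
    have h4 := h3.2
    rw [hgn k] at h4
    exact_mod_cast h4

theorem k1StarEmbedded : K1StarEmbedded (range (pt hB)) := by
  classical
  rintro f ⟨-, C, hC⟩
  have hp : ∀ n, pt hB n ∈ range (pt hB) := fun n => ⟨n, rfl⟩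
  have hC' : ∀ n, f ⟨pt hB n, hp n⟩ ∈ Icc (-C) C := fun n => abs_le.1 (hC _)
  haveI : Nonempty (Icc (-C) C) := ⟨⟨_, hC' 0⟩⟩
  obtain ⟨c, hc, hcs⟩ := exists_nat_bool_continuous_surjective_of_compact (Icc (-C) C)
  choose d hd using fun n => hcs ⟨_, hC' n⟩
  choose A hA1 hA2 hA3 using fun k => exists_ambiguous hB {n | d n k = true}
  let Δ : Xset hB → ℕ → Bool := fun x k => decide (x ∈ A k)
  refine ⟨fun x => (c (Δ x) : ℝ), ⟨fun V hV => ?_, C, fun x => abs_le.2 (c (Δ x)).2⟩, ?_⟩
  · have h1 : IsOpen ((fun w => (c w : ℝ)) ⁻¹' V) := hV.preimage (continuous_subtype_val.comp hc)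
    refine functAdd_cantor Δ ?_ h1
    intro k b
    cases b with
    | true =>
      have : {x | Δ x k = true} = A k := by ext x; simp [Δ]
      rw [this]
      exact hA1 k
    | false =>
      have : {x | Δ x k = false} = (A k)ᶜ := by ext x; simp [Δ]
      rw [this]
      exact hA2 k
  · rintro ⟨_, n, rfl⟩
    show (c (Δ (pt hB n)) : ℝ) = f ⟨pt hB n, _⟩
    have h1 : Δ (pt hB n) = d n := by
      funext k
      have := hA3 k n
      by_cases h : d n k = true
      · rw [h]
        exact decide_eq_true (this.2 h)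
      · have h' : d n k = false := by simpa using h
        rw [h']
        exact decide_eq_false (fun hx => h (this.1 hx))
    rw [h1, hd n]

end Space

/-- **There is a `K₁*`-embedded subspace which is not `K₁`-embedded.** -/
theorem result : ∃ (X : Type) (_ : TopologicalSpace X) (E : Set X),
    K1StarEmbedded E ∧ ¬ K1Embedded E := by
  obtain ⟨B, hB⟩ := exists_maximal
  exact ⟨Xset hB, inferInstance, range (pt hB), k1StarEmbedded hB, not_K1Embedded hB⟩

end Pool.Agent.Results.MP_b12a75_gt.BoundedNotUnbounded
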